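import Pool.Agent.H.MP_d8b6f8_al.C

set_option autoImplicit false

namespace Pool.Agent.Results.MP_d8b6f8_al.NotD
open Pool.Agent.H.MP_d8b6f8_al

theorem result : ∃ C : Cls, IsSchunck C ∧ Idem C ∧ ∃ (G : Type) (_ : Group G), FS G ∧
    ∃ M : Subgroup G, MaxSub C M ∧ ¬ Proj C M :=
  ⟨X, X_sch, X_idem, B, inferInstance, fsB, q1⟩

end Pool.Agent.Results.MP_d8b6f8_al.NotD
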