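import Pool.Agent.H.MP_d8b6f8_al.E

set_option autoImplicit false

namespace Pool.Agent.Results.MP_d8b6f8_al.NotSublattice
open Pool.Agent.H.MP_d8b6f8_al

theorem result : ∃ C C' : Cls, IsSchunck C ∧ Idem C ∧ IsSchunck C' ∧ Idem C' ∧
    ¬ Idem (join C C') :=
  ⟨X, Y, X_sch, X_idem, Y_sch, Y_idem, q2⟩

end Pool.Agent.Results.MP_d8b6f8_al.NotSublattice
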